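import Pool.Agent.TH690.UE.Side
set_option autoImplicit false

/-!
Continuity of the regulator integral `pr` in a parameter.
-/

namespace Pool.Agent.R388.CU

open MeasureTheory Set Filter Topology

open Pool.Agent.TH826.UH

open Pool.Agent.TH690.UR (wn)

/-- A family of nonvanishing functions on `ℝ`, of class `C²` also in the parameter `κ`, for
`‖κ‖ < ρ`. -/
structure Fam (ρ : ℝ) (G : ℂ → ℝ → ℂ) : Prop where
  smooth : ∀ κ : ℂ, ‖κ‖ < ρ → ∀ θ : ℝ, ContDiffAt ℝ 2 (fun p : ℂ × ℝ => G p.1 p.2) (κ, θ)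
  ne : ∀ κ : ℂ, ‖κ‖ < ρ → ∀ θ : ℝ, G κ θ ≠ 0

variable {ρ : ℝ} {G H : ℂ → ℝ → ℂ}

theorem Fam.nz (hG : Fam ρ G) {κ : ℂ} (hκ : ‖κ‖ < ρ) : NZ (G κ) := by
  refine ⟨contDiff_iff_contDiffAt.2 fun θ => ?_, hG.ne κ hκ⟩
  exact (hG.smooth κ hκ θ).comp θ (contDiffAt_const.prodMk contDiffAt_id)

theorem Fam.deriv_eq (hG : Fam ρ G) {κ : ℂ} (hκ : ‖κ‖ < ρ) (θ : ℝ) :
    deriv (G κ) θ = fderiv ℝ (fun p : ℂ × ℝ => G p.1 p.2) (κ, θ) (0, 1) := by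
  have h1 := ((hG.smooth κ hκ θ).differentiableAt (by norm_num)).hasFDerivAt
  have h2 : HasDerivAt (fun θ : ℝ => ((κ, θ) : ℂ × ℝ)) (0, 1) θ :=
    (hasDerivAt_const θ κ).prodMk (hasDerivAt_id θ)
  exact (h1.comp_hasDerivAt θ h2).deriv

theorem Fam.continuousAt (hG : Fam ρ G) {κ : ℂ} (hκ : ‖κ‖ < ρ) (θ : ℝ) :
    ContinuousAt (fun p : ℂ × ℝ => G p.1 p.2) (κ, θ) := (hG.smooth κ hκ θ).continuousAt

theorem Fam.continuousAt_deriv (hG : Fam ρ G) {κ : ℂ} (hκ : ‖κ‖ < ρ) (θ : ℝ) :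
    ContinuousAt (fun p : ℂ × ℝ => deriv (G p.1) p.2) (κ, θ) := by
  have h1 : ContinuousAt (fun p : ℂ × ℝ => fderiv ℝ (fun p : ℂ × ℝ => G p.1 p.2) p (0, 1))
      (κ, θ) :=
    ((hG.smooth κ hκ θ).fderiv_right (m := 1) (by norm_num)).continuousAt.clm_apply
      continuousAt_const
  refine h1.congr ?_
  have h2 : ∀ᶠ p : ℂ × ℝ in 𝓝 (κ, θ), ‖p.1‖ < ρ :=
    continuousAt_fst.norm.eventually (gt_mem_nhds hκ)
  filter_upwards [h2] with p hp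
  exact (hG.deriv_eq hp p.2).symm

theorem Fam.continuousAt_log (hG : Fam ρ G) {κ : ℂ} (hκ : ‖κ‖ < ρ) (θ : ℝ) :
    ContinuousAt (fun p : ℂ × ℝ => Real.log ‖G p.1 p.2‖) (κ, θ) :=
  (hG.continuousAt hκ θ).norm.log (norm_ne_zero_iff.2 (hG.ne κ hκ θ))

theorem Fam.continuousAt_ld (hG : Fam ρ G) {κ : ℂ} (hκ : ‖κ‖ < ρ) (θ : ℝ) :
    ContinuousAt (fun p : ℂ × ℝ => (deriv (G p.1) p.2 / G p.1 p.2).im) (κ, θ) :=
  Complex.continuous_im.continuousAt.comp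
    ((hG.continuousAt_deriv hκ θ).div (hG.continuousAt hκ θ) (hG.ne κ hκ θ))

/-- integrals of continuous families are continuous -/
theorem continuousAt_integral {f : ℂ → ℝ → ℝ} (hρ : 0 < ρ)
    (hf : ∀ κ : ℂ, ‖κ‖ < ρ → ∀ θ, ContinuousAt (fun p : ℂ × ℝ => f p.1 p.2) (κ, θ)) :
    ContinuousAt (fun κ => ∫ θ in (0 : ℝ)..1, f κ θ) 0 := by
  have h1 : Continuous (Function.uncurry fun (κ : Metric.ball (0 : ℂ) ρ) (θ : ℝ) => f κ θ) := by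
    rw [continuous_iff_continuousAt]
    rintro ⟨κ, θ⟩
    have h2 := hf κ (mem_ball_zero_iff.1 κ.2) θ
    have h3 : ContinuousAt (fun p : Metric.ball (0 : ℂ) ρ × ℝ => ((p.1 : ℂ), p.2)) (κ, θ) :=
      (continuous_subtype_val.comp continuous_fst |>.prodMk continuous_snd).continuousAt
    exact ContinuousAt.comp (f := fun p : Metric.ball (0 : ℂ) ρ × ℝ => ((p.1 : ℂ), p.2)) h2 h3
  have h2 := intervalIntegral.continuous_parametric_intervalIntegral_of_continuous'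
    (μ := volume) h1 0 1
  have h3 : ContinuousOn (fun κ => ∫ θ in (0 : ℝ)..1, f κ θ) (Metric.ball 0 ρ) := by
    rw [continuousOn_iff_continuous_restrict]
    exact h2
  exact h3.continuousAt (Metric.ball_mem_nhds 0 hρ)

theorem Fam.pr_continuousAt (hρ : 0 < ρ) (hG : Fam ρ G) (hH : Fam ρ H) :
    ContinuousAt (fun κ => pr (G κ) (H κ)) 0 :=
  continuousAt_integral hρ fun _ hκ θ => ((hG.continuousAt_log hκ θ).mul
    (hH.continuousAt_ld hκ θ)).sub ((hH.continuousAt_log hκ θ).mul (hG.continuousAt_ld hκ θ))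

theorem Fam.wn_continuousAt (hρ : 0 < ρ) (hG : Fam ρ G) :
    ContinuousAt (fun κ => wn (G κ)) 0 :=
  continuousAt_integral hρ fun _ hκ θ => hG.continuousAt_ld hκ θ

theorem Fam.mul (hG : Fam ρ G) (hH : Fam ρ H) : Fam ρ fun κ θ => G κ θ * H κ θ :=
  ⟨fun κ hκ θ => (hG.smooth κ hκ θ).mul (hH.smooth κ hκ θ),
    fun κ hκ θ => mul_ne_zero (hG.ne κ hκ θ) (hH.ne κ hκ θ)⟩

theorem Fam.inv (hG : Fam ρ G) : Fam ρ fun κ θ => (G κ θ)⁻¹ :=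
  ⟨fun κ hκ θ => (hG.smooth κ hκ θ).inv (hG.ne κ hκ θ),
    fun κ hκ θ => inv_ne_zero (hG.ne κ hκ θ)⟩

theorem Fam.div (hG : Fam ρ G) (hH : Fam ρ H) : Fam ρ fun κ θ => G κ θ / H κ θ := by
  simp only [div_eq_mul_inv]
  exact hG.mul hH.inv

theorem Fam.neg (hG : Fam ρ G) : Fam ρ fun κ θ => -G κ θ :=
  ⟨fun κ hκ θ => (hG.smooth κ hκ θ).neg, fun κ hκ θ => neg_ne_zero.2 (hG.ne κ hκ θ)⟩

/-- The regulator of `{κ⁻¹ g, κ⁻¹ h}`. -/
theorem pr_scale {G H : ℝ → ℂ} (hG : NZ G) (hH : NZ H) {κ : ℂ} (hκ : κ ≠ 0) :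
    pr (fun θ => κ⁻¹ * G θ) (fun θ => κ⁻¹ * H θ) =
      pr G H + Real.log ‖κ‖ * (wn G - wn H) := by
  have hc : NZ fun _ : ℝ => κ⁻¹ := Pool.Agent.TH690.UR.nz_const (inv_ne_zero hκ)
  rw [Pool.Agent.TH690.UR.pr_mul_left hc hG (hc.mul hH), pr_mul hc hc hH, pr_mul hG hc hH,
    Pool.Agent.TH690.UR.pr_self, Pool.Agent.TH690.UR.pr_const_left,
    Pool.Agent.TH690.UR.pr_const_right, norm_inv, Real.log_inv]
  ring

end Pool.Agent.R388.CU
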