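import Pool.Agent.TH826.SX.Milnor
set_option autoImplicit false

/-!
Symbols `{x, y}` whose entries satisfy `(1 + x) (1 + y) (x + y) = - t x y` with `t` integral.
-/

namespace Pool.Agent.R388.CU

open scoped WithZero

open Pool.Agent.TH826.MK (symb unitPart symb_update_mul mem_unitPart_of_oneUnit' mem_unitPart_of_pow)

open Pool.Agent.TH826.SX (symb_self symb_self_neg symb_upd_neg symb_upd_inv)

variable {L : Type*} [Field L] (v : Valuation L ℤᵐ⁰)

theorem upd1 (a b c : Lˣ) : Function.update ![a, b] 1 c = ![a, c] := by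
  funext i
  fin_cases i <;> rfl

theorem upd0 (a b c : Lˣ) : Function.update ![a, b] 0 c = ![c, b] := by
  funext i
  fin_cases i <;> rfl

theorem add_l {x y : L} (h : v x < v y) : v (x + y) = v y := by
  rw [add_comm]
  exact Valuation.map_add_eq_of_lt_left v h

theorem add_r {x y : L} (h : v y < v x) : v (x + y) = v x :=
  Valuation.map_add_eq_of_lt_left v h

theorem mem_of_units {x y : Lˣ} (hx : v (x : L) = 1) (hy : v (y : L) = 1) :
    symb ![x, y] ∈ unitPart v 2 :=
  Submodule.subset_span ⟨![x, y], fun i => by fin_cases i <;> assumption, rfl⟩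

/-- If `x ≡ -1` or `y ≡ -1` the symbol `{x, y}` lies in the unit part. -/
theorem mem_of_neg_one_left {x y : Lˣ} (h : v ((x : L) + 1) < 1) :
    symb ![x, y] ∈ unitPart v 2 := by
  refine mem_unitPart_of_pow v 0 ![x, y] two_ne_zero ?_
  have hx : v (x : L) = 1 := by
    have h1 : (x : L) = -1 + ((x : L) + 1) := by ring
    rw [h1, Valuation.map_add_eq_of_lt_left v (by rwa [Valuation.map_neg, map_one]),
      Valuation.map_neg, map_one]
  have h2 : ((![x, y] 0 : Lˣ) : L) ^ 2 - 1 = ((x : L) + 1) * (x - 1) := by
    show (x : L) ^ 2 - 1 = _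
    ring
  rw [h2, map_mul]
  have h3 : v ((x : L) - 1) ≤ 1 :=
    (v.map_sub _ _).trans (by rw [hx, map_one, max_self])
  calc v ((x : L) + 1) * v ((x : L) - 1) ≤ v ((x : L) + 1) * 1 := by gcongr
    _ < 1 := by rwa [mul_one]

theorem mem_of_neg_one_right {x y : Lˣ} (h : v ((y : L) + 1) < 1) :
    symb ![x, y] ∈ unitPart v 2 := by
  refine mem_unitPart_of_pow v 1 ![x, y] two_ne_zero ?_
  have hx : v (y : L) = 1 := by
    have h1 : (y : L) = -1 + ((y : L) + 1) := by ring
    rw [h1, Valuation.map_add_eq_of_lt_left v (by rwa [Valuation.map_neg, map_one]),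
      Valuation.map_neg, map_one]
  have h2 : ((![x, y] 1 : Lˣ) : L) ^ 2 - 1 = ((y : L) + 1) * (y - 1) := by
    show (y : L) ^ 2 - 1 = _
    ring
  rw [h2, map_mul]
  have h3 : v ((y : L) - 1) ≤ 1 :=
    (v.map_sub _ _).trans (by rw [hx, map_one, max_self])
  calc v ((y : L) + 1) * v ((y : L) - 1) ≤ v ((y : L) + 1) * 1 := by gcongr
    _ < 1 := by rwa [mul_one]

/-- If `x + y` is of smaller order than `x`, the symbol `{x, y}` lies in the unit part. -/
theorem mem_of_add_lt {x y : Lˣ} (h : v ((x : L) + y) < v (x : L)) :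
    symb ![x, y] ∈ unitPart v 2 := by
  have hx0 : (x : L) ≠ 0 := x.ne_zero
  have hv0 : 0 < v (x : L) := by
    rw [Valuation.pos_iff]
    exact hx0
  have e : y = -x * (-y / x) := by
    rw [neg_mul, mul_div_cancel, neg_neg]
  have h1 : symb ![x, y] = symb ![x, -x] + symb ![x, -y / x] := by
    conv_lhs => rw [e]
    have := symb_update_mul ![x, y] 1 (-x) (-y / x)
    rwa [upd1, upd1, upd1] at this
  have h2 : symb ![x, -x] = 0 := symb_self_neg ![x, -x] (i := 0) (j := 1) (by decide) rfl
  rw [h1, h2, zero_add]
  refine mem_unitPart_of_oneUnit' v 1 ![x, -y / x] ?_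
  show v (((-y / x : Lˣ) : L) - 1) < 1
  have h3 : ((-y / x : Lˣ) : L) - 1 = -(((x : L) + y) / x) := by
    rw [Units.val_div_eq_div_val, Units.val_neg]
    field_simp
    ring
  rw [h3, Valuation.map_neg, map_div₀, div_lt_one₀ hv0]
  exact h

/-- If `(1 + x) (1 + y) (x + y) = - t x y` and `t` is integral at `v`, then the symbol `{x, y}`
lies in the unit part. -/
theorem mem_unitPart_of_eqn {x y : Lˣ} {t : L} (ht : v t ≤ 1)
    (h : (1 + (x : L)) * (1 + y) * (x + y) = -(t * x * y)) : symb ![x, y] ∈ unitPart v 2 := by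
  have hx0 : v (x : L) ≠ 0 := (Valuation.ne_zero_iff v).2 x.ne_zero
  have hy0 : v (y : L) ≠ 0 := (Valuation.ne_zero_iff v).2 y.ne_zero
  have hv : v (1 + (x : L)) * v (1 + (y : L)) * v ((x : L) + y) ≤ v (x : L) * v (y : L) := by
    rw [← map_mul, ← map_mul, h, Valuation.map_neg, map_mul, map_mul, mul_assoc]
    calc v t * (v (x : L) * v (y : L)) ≤ 1 * (v (x : L) * v (y : L)) := by gcongr
      _ = _ := one_mul _
  have hpx : 0 < v (x : L) := zero_lt_iff.2 hx0
  have hpy : 0 < v (y : L) := zero_lt_iff.2 hy0
  have small : ∀ z : L, v z < 1 → v (1 + z) = 1 := fun z hz => Valuation.map_one_add_of_lt v hz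
  have large : ∀ z : L, 1 < v z → v (1 + z) = v z := by
    intro z hz
    refine add_l v ?_
    rw [Valuation.map_one]
    exact hz
  by_cases hc1 : v ((x : L) + 1) < 1
  · exact mem_of_neg_one_left v hc1
  by_cases hc2 : v ((y : L) + 1) < 1
  · exact mem_of_neg_one_right v hc2
  by_cases hc3 : v ((x : L) + y) < v (x : L)
  · exact mem_of_add_lt v hc3
  rw [not_lt] at hc1 hc2 hc3
  rw [add_comm (x : L) 1] at hc1
  rw [add_comm (y : L) 1] at hc2
  by_cases hx1 : v (x : L) = 1
  · by_cases hy1 : v (y : L) = 1
    · exact mem_of_units v hx1 hy1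
    · exfalso
      rcases lt_or_gt_of_ne hy1 with hy | hy
      · rw [small _ hy, mul_one, hx1, one_mul] at hv
        have : (1 : ℤᵐ⁰) ≤ v (1 + (x : L)) * v ((x : L) + y) := by
          rw [hx1] at hc3
          exact one_le_mul hc1 hc3
        exact absurd (this.trans hv) (not_le.2 hy)
      · have e : v ((x : L) + y) = v (y : L) :=
          add_l v (hx1 ▸ hy)
        rw [large _ hy, e, hx1, one_mul] at hv
        have : v (y : L) < v (1 + (x : L)) * v (y : L) * v (y : L) := by
          calc v (y : L) = 1 * v (y : L) * 1 := by rw [one_mul, mul_one]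
            _ ≤ v (1 + (x : L)) * v (y : L) * 1 := by gcongr
            _ < v (1 + (x : L)) * v (y : L) * v (y : L) := by
              refine mul_lt_mul_of_pos_left hy ?_
              exact mul_pos (one_pos.trans_le hc1) hpy
        exact absurd hv (not_le.2 this)
  · exfalso
    rcases lt_or_gt_of_ne hx1 with hx | hx
    · rw [small _ hx, one_mul] at hv
      rcases lt_trichotomy (v (y : L)) 1 with hy | hy | hy
      · rw [small _ hy, one_mul] at hv
        have : v (x : L) * v (y : L) < v (x : L) := by
          calc v (x : L) * v (y : L) < v (x : L) * 1 := mul_lt_mul_of_pos_left hy hpx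
            _ = _ := mul_one _
        exact absurd (hc3.trans hv) (not_le.2 this)
      · have e : v ((x : L) + y) = 1 := by
          rw [add_l v (hy ▸ hx), hy]
        rw [e, mul_one, hy, mul_one] at hv
        exact absurd (hc2.trans hv) (not_le.2 hx)
      · have e : v ((x : L) + y) = v (y : L) :=
          add_l v (hx.trans hy)
        rw [large _ hy, e] at hv
        have : v (x : L) * v (y : L) < v (y : L) * v (y : L) :=
          mul_lt_mul_of_pos_right (hx.trans hy) hpy
        exact absurd hv (not_le.2 this)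
    · rw [large _ hx] at hv
      rcases lt_trichotomy (v (y : L)) 1 with hy | hy | hy
      · have e : v ((x : L) + y) = v (x : L) :=
          add_r v (hy.trans hx)
        rw [small _ hy, mul_one, e] at hv
        have : v (x : L) * v (y : L) < v (x : L) * v (x : L) :=
          mul_lt_mul_of_pos_left (hy.trans hx) hpx
        exact absurd hv (not_le.2 this)
      · have e : v ((x : L) + y) = v (x : L) :=
          add_r v (hy ▸ hx)
        rw [e, hy, mul_one] at hv
        have : v (x : L) < v (x : L) * v (1 + (y : L)) * v (x : L) := by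
          calc v (x : L) = v (x : L) * 1 * 1 := by rw [mul_one, mul_one]
            _ ≤ v (x : L) * v (1 + (y : L)) * 1 := by gcongr
            _ < v (x : L) * v (1 + (y : L)) * v (x : L) := by
              refine mul_lt_mul_of_pos_left hx ?_
              exact mul_pos hpx (one_pos.trans_le hc2)
        exact absurd hv (not_le.2 this)
      · rw [large _ hy] at hv
        have : v (x : L) * v (y : L) < v (x : L) * v (y : L) * v ((x : L) + y) := by
          calc v (x : L) * v (y : L) = v (x : L) * v (y : L) * 1 := (mul_one _).symm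
            _ < v (x : L) * v (y : L) * v ((x : L) + y) := by
              refine mul_lt_mul_of_pos_left (hx.trans_le hc3) ?_
              exact mul_pos hpx hpy
        exact absurd hv (not_le.2 this)

end Pool.Agent.R388.CU
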